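import Mathlib
import Pool.Agent.Hhelper14.ZPL.Isog

/-!
# `j` is injective on `SL₂(ℤ) \ ℍ`

Proof with the correspondences `T_N`: if `j(τ₁) = j(τ₂)` then for every large `N` the value
`j(N τ₁)` is some `j(A τ₂)`, `A τ₂` reduced; near the cusp this gives `A τ₂ = N τ₁ + n`, so
`τ₁ = B τ₂` with a matrix `B ∈ SL₂(ℚ)`, integral lower row `(c, d)`, upper row in `(1 / N) ℤ`. There
are finitely many `(c, d)`, and two primes `N` with the same `(c, d)` make `B` integral.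
-/

namespace Pool.Agent.LGO.Gal

open UpperHalfPlane Pool.Agent.Hhelper14.ZP Pool.Agent.Hhelper14.ZPL MatrixGroups Function

/-- local injectivity of `1 / j` at the cusp -/
theorem cusp_inj_aux {J : ℂ → ℂ} (hJ : AnalyticAt ℂ J 0) (hJ0 : J 0 = 1) :
    ∃ r : ℝ, 0 < r ∧ ∀ x y : ℂ, ‖x‖ < r → ‖y‖ < r → x * (J x)⁻¹ = y * (J y)⁻¹ → x = y := by
  have hJ0' : J 0 ≠ 0 := by rw [hJ0]; exact one_ne_zero
  have hd : HasStrictDerivAt (fun z => z * (J z)⁻¹) 1 0 := by
    have h1 : AnalyticAt ℂ (fun z => z * (J z)⁻¹) 0 := analyticAt_id.mul (hJ.inv hJ0')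
    have h2 := h1.hasStrictDerivAt
    have h3 : HasDerivAt (fun z => z * (J z)⁻¹)
        (1 * (J 0)⁻¹ + 0 * deriv (fun z => (J z)⁻¹) 0) 0 :=
      (hasDerivAt_id (0 : ℂ)).mul (hJ.inv hJ0').differentiableAt.hasDerivAt
    have h5 : (1 : ℂ) * (J 0)⁻¹ + 0 * deriv (fun z => (J z)⁻¹) 0 = 1 := by
      rw [hJ0]; simp
    rw [h3.deriv, h5] at h2
    exact h2
  have h6 := (hasStrictDerivAt_iff_hasStrictFDerivAt.mp hd).isLittleO
  have h7 := h6.bound (c := 1 / 2) (by norm_num)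
  rw [Metric.eventually_nhds_iff] at h7
  obtain ⟨r, hr, h8⟩ := h7
  refine ⟨r, hr, fun x y hx hy hxy => ?_⟩
  have h9 := @h8 (x, y) (by
    rw [Prod.dist_eq]
    simp only [dist_zero_right]
    exact max_lt hx hy)
  simp only [hxy, sub_self, ContinuousLinearMap.toSpanSingleton_apply, smul_eq_mul, mul_one,
    zero_sub, norm_neg] at h9
  have h10 : ‖x - y‖ = 0 := by
    have := norm_nonneg (x - y)
    linarith
  exact sub_eq_zero.mp (norm_eq_zero.mp h10)

theorem norm_qParam (τ : ℍ) : ‖Periodic.qParam 1 (τ : ℂ)‖ = Real.exp (-2 * Real.pi * τ.im) := by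
  rw [Periodic.norm_qParam]
  simp

/-- near the cusp `j` is injective up to translations -/
theorem cusp_inj : ∃ T : ℝ, ∀ s t : ℍ, 1 / 2 ≤ s.im → T ≤ t.im → jInv s = jInv t →
    ∃ n : ℤ, (s : ℂ) = t + n := by
  obtain ⟨J, hJg, hJ0, hJτ⟩ := exists_J
  have hana : AnalyticOnNhd ℂ J (Metric.ball 0 1) :=
    hJg.differentiableOn.analyticOnNhd Metric.isOpen_ball
  obtain ⟨r, hr, hinj⟩ := cusp_inj_aux (hana 0 (by simp)) hJ0
  -- a bound for `J`
  set ρ := Real.exp (-2 * Real.pi * (1 / 2)) with hρ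
  have hρ1 : ρ < 1 := by
    rw [hρ, Real.exp_lt_one_iff]
    have := Real.pi_pos
    linarith
  obtain ⟨B, hB⟩ := (isCompact_closedBall (0 : ℂ) ρ).exists_bound_of_continuousOn
    (f := J) (hana.continuousOn.mono (Metric.closedBall_subset_ball hρ1))
  have hB0 : 0 ≤ B := (norm_nonneg _).trans (hB 0 (by simp [hρ, Real.exp_nonneg]))
  -- `J` is near one near zero
  have hev : ∀ᶠ z in nhds (0 : ℂ), 1 / 2 < ‖J z‖ := by
    have h1 : ContinuousAt (fun z => ‖J z‖) 0 := (hana 0 (by simp)).continuousAt.norm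
    have h2 : (1 : ℝ) / 2 < ‖J 0‖ := by rw [hJ0]; norm_num
    exact h1.eventually (lt_mem_nhds h2)
  obtain ⟨r', hr', hJr'⟩ := Metric.eventually_nhds_iff.mp hev
  have hlim : Filter.Tendsto (fun T : ℝ => Real.exp (-2 * Real.pi * T)) Filter.atTop (nhds 0) := by
    refine Real.tendsto_exp_atBot.comp ?_
    refine Filter.Tendsto.const_mul_atTop_of_neg ?_ Filter.tendsto_id
    have := Real.pi_pos
    linarith
  have hpos : 0 < min r (min r' (r / (2 * B + 1))) :=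
    lt_min hr (lt_min hr' (by positivity))
  obtain ⟨T, hT⟩ := (hlim.eventually (gt_mem_nhds hpos)).exists
  refine ⟨T, fun s t hs ht hst => ?_⟩
  set x := Periodic.qParam 1 (s : ℂ) with hx
  set y := Periodic.qParam 1 (t : ℂ) with hy
  have hx0 : x ≠ 0 := Periodic.qParam_ne_zero _
  have hy0 : y ≠ 0 := Periodic.qParam_ne_zero _
  have hyn : ‖y‖ < min r (min r' (r / (2 * B + 1))) := by
    refine lt_of_le_of_lt ?_ hT
    rw [hy, norm_qParam, Real.exp_le_exp]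
    have := Real.pi_pos
    nlinarith
  have hxn : ‖x‖ ≤ ρ := by
    rw [hx, norm_qParam, hρ, Real.exp_le_exp]
    have := Real.pi_pos
    nlinarith
  have hJy : 1 / 2 < ‖J y‖ := hJr' (by
    rw [dist_zero_right]
    exact hyn.trans_le ((min_le_right _ _).trans (min_le_left _ _)))
  have hJx : ‖J x‖ ≤ B := hB x (by simpa using hxn)
  have h1 : jInv s * x = J x := hJτ s
  have h2 : jInv t * y = J y := hJτ t
  have hJy0 : J y ≠ 0 := by
    intro h; rw [h, norm_zero] at hJy; linarith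
  have hj0 : jInv t ≠ 0 := by
    intro h; rw [h, zero_mul] at h2; exact hJy0 h2.symm
  have hJx0 : J x ≠ 0 := by
    rw [← h1, hst]; exact mul_ne_zero hj0 hx0
  have e1 : x * (J x)⁻¹ = (jInv t)⁻¹ := by
    rw [← h1, hst, mul_inv]
    field_simp
  have e2 : y * (J y)⁻¹ = (jInv t)⁻¹ := by
    rw [← h2, mul_inv]
    field_simp
  have hxr : ‖x‖ < r := by
    have e3 : x * J y = y * J x := by
      have := e1.trans e2.symm
      field_simp at this
      linear_combination this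
    have e4 : ‖x‖ * ‖J y‖ = ‖y‖ * ‖J x‖ := by rw [← norm_mul, e3, norm_mul]
    have h3 : ‖y‖ < r / (2 * B + 1) := hyn.trans_le ((min_le_right _ _).trans (min_le_right _ _))
    rw [lt_div_iff₀ (by positivity)] at h3
    have h4 : ‖x‖ * (1 / 2) ≤ ‖y‖ * B := by
      calc ‖x‖ * (1 / 2) ≤ ‖x‖ * ‖J y‖ := by gcongr
        _ = ‖y‖ * ‖J x‖ := e4
        _ ≤ ‖y‖ * B := by gcongr
    have h5 : 0 < ‖y‖ := norm_pos_iff.mpr hy0
    nlinarith
  have hxy := hinj x y hxr (hyn.trans_le (min_le_left _ _)) (e1.trans e2.symm)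
  rw [hx, hy] at hxy
  simp only [Periodic.qParam] at hxy
  obtain ⟨n, hn⟩ := Complex.exp_eq_exp_iff_exists_int.mp hxy
  refine ⟨n, ?_⟩
  have hpi : (2 * Real.pi * Complex.I : ℂ) ≠ 0 := Complex.two_pi_I_ne_zero
  have h5 : (2 * Real.pi * Complex.I : ℂ) * ((s : ℂ) - (t + n)) = 0 := by
    simp only [Complex.ofReal_one, div_one] at hn
    linear_combination hn
  have h6 := (mul_eq_zero.mp h5).resolve_left hpi
  linear_combination h6

/-- if `j(τ₁) = j(τ₂)` then `N τ₁` is the translate of `τ₂` by a matrix of determinant `N` -/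
theorem exists_quasi {τ₁ τ₂ : ℍ} (h : jInv τ₁ = jInv τ₂) : ∃ N₀ : ℕ, ∀ N : ℕ, N₀ ≤ N →
    ∃ a b c d : ℤ, a * d - b * c = N ∧ (N : ℂ) * τ₁ * (c * τ₂ + d) = a * τ₂ + b := by
  obtain ⟨T, hT⟩ := cusp_inj
  obtain ⟨N₀, hN₀⟩ := exists_nat_gt (T / τ₁.im)
  refine ⟨N₀ + 1, fun N hN => ?_⟩
  have hNpos : 0 < N := by omega
  have hτ₁ := τ₁.im_pos
  have hNT : T ≤ N * τ₁.im := by
    rw [div_lt_iff₀ hτ₁] at hN₀
    have h1 : (N₀ : ℝ) ≤ N := by exact_mod_cast (by omega : N₀ ≤ N)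
    nlinarith
  let A : DD N := ⟨!![(N : ℤ), 0; 0, 1], by simp [Matrix.det_fin_two]⟩
  obtain ⟨q, hq⟩ := root_mem hNpos A h
  induction q using Quotient.inductionOn' with
  | h A' =>
    rw [jQ_mk] at hq
    obtain ⟨g, hg⟩ := ModularGroup.exists_smul_mem_fd (act hNpos A' τ₂)
    set s := g • act hNpos A' τ₂ with hs
    have h1 : (1 : ℝ) / 2 ≤ s.im := by
      have h2 := ModularGroup.three_le_four_mul_im_sq_of_mem_fd hg
      have h3 := s.im_pos
      nlinarith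
    have h2 : (act hNpos A τ₁ : ℂ) = N * τ₁ := by
      rw [coe_act]
      simp [A]
    have h3 : T ≤ (act hNpos A τ₁).im := by
      have h4 : (act hNpos A τ₁).im = N * τ₁.im := by
        have h5 := congrArg Complex.im h2
        have h6 : ((N : ℂ) * τ₁).im = N * τ₁.im := by simp [Complex.mul_im]
        rw [h6] at h5
        exact h5
      rw [h4]
      exact hNT
    have h4 : jInv s = jInv (act hNpos A τ₁) := by
      rw [hs, jInv_smul]
      exact hq.symm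
    obtain ⟨n, hn⟩ := hT s _ h1 h3 h4
    rw [h2, hs, ← act_smul, coe_act] at hn
    set B := (g • A').1 with hB
    have hdet : B.det = N := (g • A').2
    rw [Matrix.det_fin_two] at hdet
    have hden : ((B 1 0 : ℂ) * τ₂ + B 1 1) ≠ 0 := by
      intro h0
      have h5 := congrArg Complex.im h0
      have h6 : (B 1 0 : ℝ) * τ₂.im = 0 := by
        simpa [Complex.mul_im] using h5
      have h7 : (B 1 0 : ℤ) = 0 := by
        rcases mul_eq_zero.mp h6 with h8 | h8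
        · exact_mod_cast h8
        · exact absurd h8 τ₂.im_pos.ne'
      rw [h7] at h0 hdet
      have h8 : (B 1 1 : ℤ) = 0 := by
        simpa using h0
      rw [h8] at hdet
      simp at hdet
      omega
    rw [div_eq_iff hden] at hn
    refine ⟨B 0 0 - n * B 1 0, B 0 1 - n * B 1 1, B 1 0, B 1 1, by linear_combination hdet, ?_⟩
    push_cast
    linear_combination -hn

theorem lin_indep {τ : ℍ} {x y : ℝ} (h : (x : ℂ) * τ + y = 0) : x = 0 ∧ y = 0 := by
  have h1 := congrArg Complex.im h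
  have h2 : x * τ.im = 0 := by simpa [Complex.mul_im] using h1
  have h3 : x = 0 := (mul_eq_zero.mp h2).resolve_right τ.im_pos.ne'
  rw [h3] at h
  refine ⟨h3, ?_⟩
  simpa using h

theorem im_identity {N : ℕ} (hN : 0 < N) {τ₁ τ₂ : ℍ} {a b c d : ℤ} (hdet : a * d - b * c = N)
    (h : (N : ℂ) * τ₁ * (c * τ₂ + d) = a * τ₂ + b) :
    τ₁.im * ((c * τ₂.re + d) ^ 2 + (c * τ₂.im) ^ 2) = τ₂.im := by
  have hre := congrArg Complex.re h
  have him := congrArg Complex.im h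
  simp only [Complex.mul_re, Complex.mul_im, Complex.add_re, Complex.add_im, Complex.natCast_re,
    Complex.natCast_im, Complex.intCast_re, Complex.intCast_im, coe_re, coe_im] at hre him
  have hdet' : (a : ℝ) * d - b * c = N := by exact_mod_cast hdet
  have hN' : (N : ℝ) ≠ 0 := by exact_mod_cast hN.ne'
  apply mul_left_cancel₀ hN'
  linear_combination (c * τ₂.re + d) * him - (c * τ₂.im) * hre + τ₂.im * hdet'

/-- **`j` is injective modulo `SL₂(ℤ)`** -/
theorem j_inj {τ₁ τ₂ : ℍ} (h : jInv τ₁ = jInv τ₂) : ∃ γ : SL(2, ℤ), τ₁ = γ • τ₂ := by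
  obtain ⟨N₀, hN₀⟩ := exists_quasi h
  have hτ₁ := τ₁.im_pos
  have hτ₂ := τ₂.im_pos
  let S : Set ℕ := {p | p.Prime ∧ N₀ ≤ p}
  have hS : S.Infinite := by
    have h1 := Nat.infinite_setOfPred_prime
    have h2 : S = {p | p.Prime} \ {p | p < N₀} := by
      ext p
      simp [S]
    rw [h2]
    exact h1.sdiff (Set.finite_lt_nat N₀)
  choose! a b c d hdet hrel using fun N (hN : N₀ ≤ N) => hN₀ N hN
  obtain ⟨M, hM⟩ := exists_nat_gt
    (1 + τ₂.im / τ₁.im + 1 / (τ₁.im * τ₂.im) + |τ₂.re| * (1 + 1 / (τ₁.im * τ₂.im)))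
  have hbd : ∀ p ∈ S, (c p, d p) ∈ Set.Icc (-(M : ℤ)) M ×ˢ Set.Icc (-(M : ℤ)) M := by
    intro p hp
    have hp0 : 0 < p := hp.1.pos
    have h1 := im_identity hp0 (hdet p hp.2) (hrel p hp.2)
    have h2 : (c p * τ₂.im) ^ 2 ≤ τ₂.im / τ₁.im := by
      rw [le_div_iff₀ hτ₁]
      nlinarith [sq_nonneg (c p * τ₂.re + d p : ℝ)]
    have h3 : (c p * τ₂.re + d p) ^ 2 ≤ τ₂.im / τ₁.im := by
      rw [le_div_iff₀ hτ₁]
      nlinarith [sq_nonneg (c p * τ₂.im : ℝ)]
    have h4 : |(c p : ℝ)| ≤ 1 + 1 / (τ₁.im * τ₂.im) := by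
      have h5 : (c p : ℝ) ^ 2 ≤ 1 / (τ₁.im * τ₂.im) := by
        rw [le_div_iff₀ (by positivity)]
        rw [le_div_iff₀ hτ₁] at h2
        have h6 : (c p : ℝ) ^ 2 * (τ₁.im * τ₂.im) * τ₂.im ≤ 1 * τ₂.im := by nlinarith
        exact le_of_mul_le_mul_right h6 hτ₂
      have h6 : |(c p : ℝ)| ≤ 1 + (c p : ℝ) ^ 2 := by
        have := sq_abs (c p : ℝ)
        nlinarith [sq_nonneg (|(c p : ℝ)| - 1), abs_nonneg (c p : ℝ)]
      linarith
    have h5 : |(c p * τ₂.re + d p : ℝ)| ≤ 1 + τ₂.im / τ₁.im := by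
      have := sq_abs (c p * τ₂.re + d p : ℝ)
      nlinarith [sq_nonneg (|(c p * τ₂.re + d p : ℝ)| - 1), abs_nonneg (c p * τ₂.re + d p : ℝ)]
    have h6 : |(d p : ℝ)| ≤ (1 + τ₂.im / τ₁.im) + |τ₂.re| * (1 + 1 / (τ₁.im * τ₂.im)) := by
      have e : (d p : ℝ) = (c p * τ₂.re + d p) - c p * τ₂.re := by ring
      calc |(d p : ℝ)| = |(c p * τ₂.re + d p) - c p * τ₂.re| := by rw [← e]
        _ ≤ |(c p * τ₂.re + d p : ℝ)| + |c p * τ₂.re| := abs_sub _ _
        _ = |(c p * τ₂.re + d p : ℝ)| + |τ₂.re| * |(c p : ℝ)| := by rw [abs_mul, mul_comm |(c p : ℝ)|]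
        _ ≤ _ := by gcongr
    have h7 : 0 ≤ τ₂.im / τ₁.im := by positivity
    have h8 : 0 ≤ 1 / (τ₁.im * τ₂.im) := by positivity
    have h9 : 0 ≤ |τ₂.re| * (1 + 1 / (τ₁.im * τ₂.im)) := by positivity
    have hc : |(c p : ℝ)| ≤ M := by linarith
    have hd : |(d p : ℝ)| ≤ M := by linarith
    have hc' : |c p| ≤ (M : ℤ) := by exact_mod_cast hc
    have hd' : |d p| ≤ (M : ℤ) := by exact_mod_cast hd
    exact ⟨abs_le.mp hc', abs_le.mp hd'⟩
  obtain ⟨p, hp, r, hr, hpr, heq⟩ := hS.exists_ne_map_eq_of_mapsTo (f := fun p => (c p, d p)) hbd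
    ((Set.finite_Icc _ _).prod (Set.finite_Icc _ _))
  simp only [Prod.mk.injEq] at heq
  obtain ⟨hcc, hdd⟩ := heq
  have e1 := hrel p hp.2
  have e2 := hrel r hr.2
  rw [← hcc, ← hdd] at e2
  have e3 : (((r : ℤ) * a p - p * a r : ℤ) : ℝ) = 0 ∧ (((r : ℤ) * b p - p * b r : ℤ) : ℝ) = 0 := by
    apply lin_indep (τ := τ₂)
    push_cast
    linear_combination -(r : ℂ) * e1 + (p : ℂ) * e2
  obtain ⟨e4, e5⟩ := e3
  have e4' : (r : ℤ) * a p = p * a r := by
    have : (r : ℤ) * a p - p * a r = 0 := by exact_mod_cast e4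
    linear_combination this
  have e5' : (r : ℤ) * b p = p * b r := by
    have : (r : ℤ) * b p - p * b r = 0 := by exact_mod_cast e5
    linear_combination this
  have hcop : IsCoprime (p : ℤ) (r : ℤ) := by
    rw [Nat.isCoprime_iff_coprime]
    exact (Nat.coprime_primes hp.1 hr.1).mpr hpr
  obtain ⟨a', ha'⟩ : (p : ℤ) ∣ a p := hcop.dvd_of_dvd_mul_left ⟨a r, e4'⟩
  obtain ⟨b', hb'⟩ : (p : ℤ) ∣ b p := hcop.dvd_of_dvd_mul_left ⟨b r, e5'⟩
  have hp0 : (p : ℤ) ≠ 0 := by exact_mod_cast hp.1.pos.ne'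
  have hp0' : (p : ℂ) ≠ 0 := by exact_mod_cast hp.1.pos.ne'
  have hdet' : a' * d p - b' * c p = 1 := by
    have h1 := hdet p hp.2
    rw [ha', hb'] at h1
    apply mul_left_cancel₀ hp0
    linear_combination h1
  have hrel' : (τ₁ : ℂ) * (c p * τ₂ + d p) = a' * τ₂ + b' := by
    rw [ha', hb'] at e1
    push_cast at e1
    apply mul_left_cancel₀ hp0'
    linear_combination e1
  let γ : SL(2, ℤ) := ⟨!![a', b'; c p, d p], by rw [Matrix.det_fin_two_of]; exact hdet'⟩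
  refine ⟨γ, UpperHalfPlane.ext ?_⟩
  have hden : ((c p : ℂ) * τ₂ + d p) ≠ 0 := by
    intro h0
    have h1 := lin_indep (τ := τ₂) (x := c p) (y := d p) (by exact_mod_cast h0)
    have h2 : c p = 0 := by exact_mod_cast h1.1
    have h3 : d p = 0 := by exact_mod_cast h1.2
    rw [h2, h3] at hdet'
    simp at hdet'
  rw [specialLinearGroup_apply]
  change (τ₁ : ℂ) = _
  have h4 : ((((γ 0 0 : ℤ) : ℝ) : ℂ) * (τ₂ : ℂ) + (((γ 0 1 : ℤ) : ℝ) : ℂ)) /
      ((((γ 1 0 : ℤ) : ℝ) : ℂ) * (τ₂ : ℂ) + (((γ 1 1 : ℤ) : ℝ) : ℂ)) = τ₁ := by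
    simp only [γ]
    simp only [Matrix.of_apply, Matrix.cons_val', Matrix.cons_val_zero,
      Matrix.cons_val_one, Matrix.cons_val_fin_one, Complex.ofReal_intCast]
    rw [div_eq_iff hden, hrel']
  simpa using h4.symm

end Pool.Agent.LGO.Gal
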