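import Mathlib
import Pool.Agent.LGO.Defs
import Pool.Agent.LGO.Gal.JInj
import Pool.Agent.LGO.Mul.Unif
import Pool.Agent.Hhelper14.ZP2.NotHecke

/-!
# The relation `IsogDeg`: first properties
-/

namespace Pool.Agent.LGO.Gal

open UpperHalfPlane Pool.Agent.Hhelper14.ZP Pool.Agent.Hhelper14.ZPL MatrixGroups Function

variable {N M : ℕ} {x y z : ℂ}

/-- the denominator of an integral matrix of nonzero determinant does not vanish -/
theorem den_ne_zero {g : Matrix (Fin 2) (Fin 2) ℤ} (hg : g.det ≠ 0) (τ : ℍ) :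
    ((g 1 0 : ℂ) * τ + (g 1 1 : ℂ)) ≠ 0 := by
  intro h0
  have h1 := lin_indep (τ := τ) (x := g 1 0) (y := g 1 1) (by exact_mod_cast h0)
  have h2 : g 1 0 = 0 := by exact_mod_cast h1.1
  have h3 : g 1 1 = 0 := by exact_mod_cast h1.2
  apply hg
  rw [Matrix.det_fin_two, h2, h3]
  ring

theorem maps_act (hN : 0 < N) (A : DD N) (τ : ℍ) : Maps A.1 τ (act hN A τ) := by
  have hdet : A.1.det ≠ 0 := by
    have := A.2
    rw [this]
    exact_mod_cast hN.ne'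
  rw [Maps, coe_act, div_mul_cancel₀ _ (den_ne_zero hdet τ)]

theorem maps_sl (γ : SL(2, ℤ)) (τ : ℍ) : Maps γ.1 τ (γ • τ : ℍ) := by
  have h1 : ((γ • τ : ℍ) : ℂ) = ((γ.1 0 0 : ℂ) * τ + γ.1 0 1) / ((γ.1 1 0 : ℂ) * τ + γ.1 1 1) := by
    rw [specialLinearGroup_apply]
    simp
  rw [Maps, h1, div_mul_cancel₀ _ (den_ne_zero (by rw [γ.2]; exact one_ne_zero) τ)]

theorem eq_act_of_maps (hN : 0 < N) {g : Matrix (Fin 2) (Fin 2) ℤ} (hg : g.det = N) {τ τ' : ℍ}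
    (h : Maps g τ τ') : τ' = act hN (mkDD g hg) τ := by
  apply UpperHalfPlane.ext
  have hdet : g.det ≠ 0 := by
    rw [hg]
    exact_mod_cast hN.ne'
  rw [coe_act_mk, eq_div_iff (den_ne_zero hdet τ)]
  exact h

theorem isogDeg_iff (hN : 0 < N) : IsogDeg N x y ↔
    ∃ (τ : ℍ) (A : DD N), x = jInv τ ∧ y = jA hN A τ := by
  constructor
  · rintro ⟨τ, τ', g, hg, hm, hx, hy⟩
    refine ⟨τ, mkDD g hg, hx, ?_⟩
    rw [hy, eq_act_of_maps hN hg hm]
    rfl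
  · rintro ⟨τ, A, hx, hy⟩
    exact ⟨τ, act hN A τ, A.1, A.2, maps_act hN A τ, hx, hy⟩

/-- any point above `x` may be used -/
theorem isogDeg_iff_jQ (hN : 0 < N) (τ : ℍ) (y : ℂ) :
    IsogDeg N (jInv τ) y ↔ ∃ q : QQ N, y = jQ hN q τ := by
  rw [isogDeg_iff hN]
  constructor
  · rintro ⟨τ', A, hx, hy⟩
    obtain ⟨q, hq⟩ := root_mem hN A hx.symm
    exact ⟨q, by rw [hy, hq]⟩
  · rintro ⟨q, hq⟩
    induction q using Quotient.inductionOn' with
    | h A => exact ⟨τ, A, rfl, hq⟩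

/-- any point above `x` may be used -/
theorem isogDeg_iff_act (hN : 0 < N) (τ : ℍ) (y : ℂ) :
    IsogDeg N (jInv τ) y ↔ ∃ A : DD N, y = jInv (act hN A τ) := by
  rw [isogDeg_iff_jQ hN]
  constructor
  · rintro ⟨q, hq⟩
    induction q using Quotient.inductionOn' with
    | h A => exact ⟨A, hq⟩
  · rintro ⟨A, hA⟩
    exact ⟨Quotient.mk'' A, hA⟩

/-- any points above `x` and `y` may be used -/
theorem isogDeg_iff_maps (hN : 0 < N) (τ τ' : ℍ) :
    IsogDeg N (jInv τ) (jInv τ') ↔ ∃ g : Matrix (Fin 2) (Fin 2) ℤ, g.det = N ∧ Maps g τ τ' := by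
  constructor
  · intro h
    obtain ⟨A, hA⟩ := (isogDeg_iff_act hN τ _).mp h
    obtain ⟨γ, hγ⟩ := j_inj hA
    rw [← act_smul] at hγ
    refine ⟨(γ • A).1, (γ • A).2, ?_⟩
    rw [hγ]
    exact maps_act hN (γ • A) τ
  · rintro ⟨g, hg, hm⟩
    exact ⟨τ, τ', g, hg, hm, rfl, rfl⟩

end Pool.Agent.LGO.Gal

namespace Pool.Agent.LGO

open UpperHalfPlane Pool.Agent.Hhelper14.ZP Pool.Agent.Hhelper14.ZPL MatrixGroups Function Gal

/-- the relation of being isogenous -/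
theorem heckeRel_iff {x y : ℂ} : HeckeRel x y ↔ ∃ N : ℕ, 0 < N ∧ IsogDeg N x y := by
  constructor
  · rintro ⟨τ, g, hg, hx, hy⟩
    obtain ⟨N, hN, A, hA⟩ := exists_integral hg
    exact ⟨N, hN, (isogDeg_iff hN).mpr ⟨τ, A, hx, by rw [hy, hA, jA]⟩⟩
  · rintro ⟨N, hN, h⟩
    obtain ⟨τ, A, hx, hy⟩ := (isogDeg_iff hN).mp h
    obtain ⟨g, hg, hq⟩ := exists_gl_jQ hN (Quotient.mk'' A : QQ N)
    exact ⟨τ, g, hg, hx, by rw [hq, jQ_mk]; exact hy⟩

/-! ### `Maps` -/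

theorem Maps.adj {g : Matrix (Fin 2) (Fin 2) ℤ} {τ τ' : ℂ} (h : Maps g τ τ') :
    Maps g.adjugate τ' τ := by
  rw [Maps] at h ⊢
  rw [Matrix.adjugate_fin_two]
  simp only [Matrix.of_apply, Matrix.cons_val', Matrix.cons_val_zero, Matrix.cons_val_one,
    Matrix.cons_val_fin_one, Int.cast_neg]
  linear_combination -h

theorem Maps.mul {g h : Matrix (Fin 2) (Fin 2) ℤ} {τ τ' τ'' : ℂ} (h1 : Maps g τ τ')
    (h2 : Maps h τ' τ'') : Maps (h * g) τ τ'' := by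
  rw [Maps] at h1 h2 ⊢
  simp only [Matrix.mul_apply, Fin.sum_univ_two]
  push_cast
  linear_combination ((g 1 0 : ℂ) * τ + g 1 1) * h2 + ((h 0 0 : ℂ) - τ'' * h 1 0) * h1

theorem Maps.smul_iff {g : Matrix (Fin 2) (Fin 2) ℤ} {τ τ' : ℂ} {k : ℤ} (hk : k ≠ 0) :
    Maps (k • g) τ τ' ↔ Maps g τ τ' := by
  have hk' : (k : ℂ) ≠ 0 := by exact_mod_cast hk
  rw [Maps, Maps]
  simp only [Matrix.smul_apply, smul_eq_mul]
  push_cast
  constructor
  · intro h
    apply mul_left_cancel₀ hk'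
    linear_combination h
  · intro h
    linear_combination (k : ℂ) * h

theorem Maps.one (τ : ℂ) : Maps 1 τ τ := by
  simp [Maps]

theorem det_adjugate_eq (g : Matrix (Fin 2) (Fin 2) ℤ) : g.adjugate.det = g.det := by
  rw [Matrix.adjugate_fin_two, Matrix.det_fin_two_of, Matrix.det_fin_two]
  ring

/-- every integral matrix of nonzero determinant is a multiple of a primitive one -/
theorem exists_prim {g : Matrix (Fin 2) (Fin 2) ℤ} (hg : g.det ≠ 0) :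
    ∃ (k : ℕ) (g' : Matrix (Fin 2) (Fin 2) ℤ), 0 < k ∧ g = (k : ℤ) • g' ∧ Prim g' := by
  set k : ℕ := Nat.gcd (Int.gcd (g 0 0) (g 0 1)) (Int.gcd (g 1 0) (g 1 1)) with hk
  have hdvd : ∀ i j, (k : ℤ) ∣ g i j := by
    have h0 : (k : ℤ) ∣ (Int.gcd (g 0 0) (g 0 1) : ℤ) := by
      exact_mod_cast Nat.gcd_dvd_left _ _
    have h1 : (k : ℤ) ∣ (Int.gcd (g 1 0) (g 1 1) : ℤ) := by
      exact_mod_cast Nat.gcd_dvd_right _ _
    intro i j
    fin_cases i <;> fin_cases j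
    · exact h0.trans (Int.gcd_dvd_left _ _)
    · exact h0.trans (Int.gcd_dvd_right _ _)
    · exact h1.trans (Int.gcd_dvd_left _ _)
    · exact h1.trans (Int.gcd_dvd_right _ _)
  have hkpos : 0 < k := by
    rcases Nat.eq_zero_or_pos k with h | h
    · exfalso
      apply hg
      rw [h] at hdvd
      simp only [Nat.cast_zero, zero_dvd_iff] at hdvd
      rw [Matrix.det_fin_two, hdvd, hdvd, hdvd]
      ring
    · exact h
  choose g' hg' using hdvd
  refine ⟨k, Matrix.of g', hkpos, ?_, ?_⟩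
  · ext i j
    rw [Matrix.smul_apply, Matrix.of_apply, smul_eq_mul]
    exact hg' i j
  · intro d hd
    simp only [Matrix.of_apply] at hd
    have h2 : ∀ i j, ((k * d : ℕ) : ℤ) ∣ g i j := by
      intro i j
      rw [hg' i j]
      push_cast
      exact mul_dvd_mul_left _ (hd i j)
    have h3 : k * d ∣ k := by
      rw [hk]
      apply Nat.dvd_gcd
      · have := Int.dvd_coe_gcd (h2 0 0) (h2 0 1)
        exact_mod_cast this
      · have := Int.dvd_coe_gcd (h2 1 0) (h2 1 1)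
        exact_mod_cast this
    have h4 : k * d ∣ k * 1 := by rwa [mul_one]
    exact Nat.dvd_one.mp (Nat.dvd_of_mul_dvd_mul_left hkpos h4)

theorem Prim.adj {g : Matrix (Fin 2) (Fin 2) ℤ} (hg : Prim g) : Prim g.adjugate := by
  intro d hd
  apply hg d
  rw [Matrix.adjugate_fin_two] at hd
  intro i j
  fin_cases i <;> fin_cases j
  · exact hd 1 1
  · have := hd 0 1
    simpa using this
  · have := hd 1 0
    simpa using this
  · exact hd 0 0

variable {N M : ℕ} {x y z : ℂ}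

/-- any points above `x` and `y` may be used -/
theorem isogDeg_maps {N : ℕ} {τ τ' : ℍ} (h : IsogDeg N (jInv τ) (jInv τ')) :
    ∃ g : Matrix (Fin 2) (Fin 2) ℤ, g.det = N ∧ Maps g τ τ' := by
  rcases Nat.eq_zero_or_pos N with rfl | hN
  · exact ⟨0, by simp, by simp [Maps]⟩
  · exact (isogDeg_iff_maps hN τ τ').mp h

theorem IsogDeg.refl (x : ℂ) : IsogDeg 1 x x := by
  obtain ⟨τ, rfl⟩ := j_surj x
  exact ⟨τ, τ, 1, by simp, Maps.one _, rfl, rfl⟩

theorem IsogDeg.symm (h : IsogDeg N x y) : IsogDeg N y x := by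
  obtain ⟨τ, τ', g, hg, hm, hx, hy⟩ := h
  exact ⟨τ', τ, g.adjugate, by rw [det_adjugate_eq, hg], hm.adj, hy, hx⟩

theorem isogDeg_symm (h : IsogDeg N x y) : IsogDeg N y x := h.symm

theorem IsogDeg.trans (hM : 0 < M) (h : IsogDeg N x y) (h' : IsogDeg M y z) :
    IsogDeg (N * M) x z := by
  obtain ⟨τ, τ', g, hg, hm, hx, hy⟩ := h
  rw [hy] at h'
  obtain ⟨A, hA⟩ := (isogDeg_iff_act hM τ' z).mp h'
  refine ⟨τ, act hM A τ', A.1 * g, ?_, hm.mul (maps_act hM A τ'), hx, hA⟩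
  rw [Matrix.det_mul, A.2, hg]
  push_cast
  ring

/-- multiplication by `k` -/
theorem IsogDeg.mul_sq {k : ℕ} (hk : 0 < k) (h : IsogDeg N x y) : IsogDeg (k ^ 2 * N) x y := by
  obtain ⟨τ, τ', g, hg, hm, hx, hy⟩ := h
  refine ⟨τ, τ', (k : ℤ) • g, ?_, (Maps.smul_iff (by exact_mod_cast hk.ne')).mpr hm, hx, hy⟩
  rw [Matrix.det_smul, hg]
  simp

/-- the isogeny is the product of a cyclic one and a multiplication -/
theorem IsogDeg.exists_prim (hN : 0 < N) {τ : ℍ} (h : IsogDeg N (jInv τ) y) :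
    ∃ (k n : ℕ) (g : Matrix (Fin 2) (Fin 2) ℤ) (τ' : ℍ), 0 < k ∧ 0 < n ∧ N = k ^ 2 * n ∧
      Prim g ∧ g.det = n ∧ Maps g τ τ' ∧ y = jInv τ' := by
  obtain ⟨A, hA⟩ := (isogDeg_iff_act hN τ y).mp h
  have hdet : A.1.det ≠ 0 := by rw [A.2]; exact_mod_cast hN.ne'
  obtain ⟨k, g, hk, hg, hp⟩ := LGO.exists_prim hdet
  have hd : (N : ℤ) = k ^ 2 * g.det := by
    rw [← A.2, hg, Matrix.det_smul]
    simp
  have hkZ : (0 : ℤ) < k := by exact_mod_cast hk
  have hgd : 0 < g.det := by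
    have h1 : (0 : ℤ) < k ^ 2 * g.det := by rw [← hd]; exact_mod_cast hN
    exact (mul_pos_iff_of_pos_left (by positivity)).mp h1
  have hm := maps_act hN A τ
  rw [hg, Maps.smul_iff hkZ.ne'] at hm
  refine ⟨k, g.det.toNat, g, act hN A τ, hk, by omega, ?_, hp, (Int.toNat_of_nonneg hgd.le).symm,
    hm, hA⟩
  zify
  rw [Int.toNat_of_nonneg hgd.le, hd]

/-- reduced points above every number -/
theorem exists_red (x : ℂ) : ∃ τ : ℍ, Red (τ : ℂ) ∧ jInv τ = x := Unif_exists_red x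

/-- reduction of the target -/
theorem exists_red_maps {g : Matrix (Fin 2) (Fin 2) ℤ} {τ τ' : ℍ} (h : Maps g τ τ')
    (hp : Prim g) : ∃ (g' : Matrix (Fin 2) (Fin 2) ℤ) (τ'' : ℍ), g'.det = g.det ∧ Prim g' ∧
      Maps g' τ τ'' ∧ Red (τ'' : ℂ) ∧ jInv τ'' = jInv τ' := by
  obtain ⟨γ, hγ⟩ := ModularGroup.exists_smul_mem_fd τ'
  have hm : Maps γ.1 τ' (γ • τ' : ℍ) := maps_sl γ τ'
  refine ⟨γ.1 * g, γ • τ', by rw [Matrix.det_mul, γ.2, one_mul], ?_, h.mul hm,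
    ⟨(γ • τ').im_pos, hγ.2, ?_⟩, jInv_smul γ τ'⟩
  · intro d hd
    apply hp d
    have h1 : g = γ.1.adjugate * (γ.1 * g) := by
      rw [← Matrix.mul_assoc, Matrix.adjugate_mul, γ.2, one_smul, Matrix.one_mul]
    intro i j
    rw [h1, Matrix.mul_apply]
    exact Finset.dvd_sum fun k _ => Dvd.dvd.mul_left (hd k j) _
  · have h1 := hγ.1
    rw [Complex.normSq_eq_norm_sq] at h1
    have h2 := norm_nonneg ((γ • τ' : ℍ) : ℂ)
    nlinarith

end Pool.Agent.LGO
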