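import Mathlib
import Pool.Agent.LGO.Gal.Basic

/-!
# CM points and isogenies
-/

namespace Pool.Agent.LGO

open UpperHalfPlane Pool.Agent.Hhelper14.ZP Pool.Agent.Hhelper14.ZPL MatrixGroups Function Gal

variable {N M : ℕ} {x y z : ℂ}

theorem nonCM_iff (τ : ℍ) : NonCM (τ : ℂ) ↔ ¬ IsCM τ := by
  constructor
  · rintro h ⟨a, b, c, ha, habc⟩
    exact ha (h a b c habc).1
  · intro h a b c habc
    by_cases ha : a = 0
    · rw [ha, Int.cast_zero, zero_mul, zero_add] at habc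
      have h1 := lin_indep (τ := τ) (x := b) (y := c) (by exact_mod_cast habc)
      exact ⟨ha, by exact_mod_cast h1.1, by exact_mod_cast h1.2⟩
    · exact absurd ⟨a, b, c, ha, habc⟩ h

/-- a matrix which fixes a point that is not CM is a scalar -/
theorem NonCM.scalar {τ : ℂ} (hτ : NonCM τ) {g : Matrix (Fin 2) (Fin 2) ℤ} (h : Maps g τ τ) :
    g = g 0 0 • (1 : Matrix (Fin 2) (Fin 2) ℤ) := by
  rw [Maps] at h
  obtain ⟨h1, h2, h3⟩ := hτ (g 1 0) (g 1 1 - g 0 0) (-g 0 1) (by push_cast; linear_combination h)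
  ext i j
  fin_cases i <;> fin_cases j
  · simp
  · simpa using h3
  · simpa using h1
  · simp only [Matrix.smul_apply, smul_eq_mul]
    simpa using (by omega : g 1 1 = g 0 0)

/-- two matrices which map a point that is not CM to the same point are proportional -/
theorem NonCM.prop {τ τ' : ℂ} (hτ : NonCM τ) {g h : Matrix (Fin 2) (Fin 2) ℤ} (hg : Maps g τ τ')
    (hh : Maps h τ τ') : ∃ a : ℤ, g.det • h = a • g := by
  have h1 := hτ.scalar (hh.mul hg.adj)
  refine ⟨(g.adjugate * h) 0 0, ?_⟩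
  have h2 : g * (g.adjugate * h) = g * ((g.adjugate * h) 0 0 • (1 : Matrix (Fin 2) (Fin 2) ℤ)) := by
    rw [← h1]
  rw [← Matrix.mul_assoc, Matrix.mul_adjugate, Matrix.smul_mul, Matrix.one_mul, Matrix.mul_smul,
    Matrix.mul_one] at h2
  exact h2

theorem NonCM.det_mul {τ τ' : ℂ} (hτ : NonCM τ) {g h : Matrix (Fin 2) (Fin 2) ℤ}
    (hg : Maps g τ τ') (hh : Maps h τ τ') (hdet : g.det ≠ 0) : ∃ a : ℤ, g.det * h.det = a ^ 2 := by
  obtain ⟨a, ha⟩ := hτ.prop hg hh
  refine ⟨a, ?_⟩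
  have h1 := congrArg Matrix.det ha
  rw [Matrix.det_smul, Matrix.det_smul] at h1
  simp only [Fintype.card_fin] at h1
  apply mul_left_cancel₀ hdet
  linear_combination h1

theorem NonCM.prim_unique {τ τ' : ℂ} (hτ : NonCM τ) {g h : Matrix (Fin 2) (Fin 2) ℤ}
    (hg : Maps g τ τ') (hh : Maps h τ τ') (hdet : 0 < g.det) (hgp : Prim g) (hhp : Prim h) :
    h = g ∨ h = -g := by
  obtain ⟨a, ha⟩ := hτ.prop hg hh
  have he : ∀ i j, g.det * h i j = a * g i j := by
    intro i j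
    have := congrFun (congrFun ha i) j
    simpa [Matrix.smul_apply] using this
  -- `|a| = det g`
  have h1 : (a.natAbs : ℤ) ∣ g.det := by
    -- `a / gcd` divides all entries of `h`
    set e := Int.gcd a g.det with hedef
    have hepos : 0 < e := Int.gcd_pos_of_ne_zero_right _ hdet.ne'
    have he0 : (e : ℤ) ≠ 0 := by exact_mod_cast hepos.ne'
    obtain ⟨a', ha'⟩ : (e : ℤ) ∣ a := Int.gcd_dvd_left _ _
    obtain ⟨n', hn'⟩ : (e : ℤ) ∣ g.det := Int.gcd_dvd_right _ _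
    have hcop : IsCoprime a' n' := by
      rw [Int.isCoprime_iff_gcd_eq_one]
      have h3 := Int.gcd_mul_left (e : ℤ) a' n'
      rw [← ha', ← hn', ← hedef, Int.natAbs_natCast] at h3
      have h4 : e * 1 = e * a'.gcd n' := by rw [mul_one]; exact h3
      exact (Nat.eq_of_mul_eq_mul_left hepos h4).symm
    have h4 : ∀ i j, n' * h i j = a' * g i j := by
      intro i j
      apply mul_left_cancel₀ he0
      have := he i j
      rw [hn', ha'] at this
      linear_combination this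
    have h5 : a'.natAbs = 1 := hhp _ fun i j => by
      rw [Int.natCast_dvd, Int.natAbs_dvd_natAbs]
      exact hcop.dvd_of_dvd_mul_left ⟨g i j, h4 i j⟩
    rw [hn', ha', Int.natAbs_mul, h5, mul_one, Int.natAbs_natCast]
    exact dvd_mul_right _ _
  have h2 : g.det ∣ a := by
    set e := Int.gcd a g.det with hedef
    have hepos : 0 < e := Int.gcd_pos_of_ne_zero_right _ hdet.ne'
    have he0 : (e : ℤ) ≠ 0 := by exact_mod_cast hepos.ne'
    obtain ⟨a', ha'⟩ : (e : ℤ) ∣ a := Int.gcd_dvd_left _ _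
    obtain ⟨n', hn'⟩ : (e : ℤ) ∣ g.det := Int.gcd_dvd_right _ _
    have hcop : IsCoprime n' a' := by
      rw [Int.isCoprime_iff_gcd_eq_one, Int.gcd_comm]
      have h3 := Int.gcd_mul_left (e : ℤ) a' n'
      rw [← ha', ← hn', ← hedef, Int.natAbs_natCast] at h3
      have h4 : e * 1 = e * a'.gcd n' := by rw [mul_one]; exact h3
      exact (Nat.eq_of_mul_eq_mul_left hepos h4).symm
    have h4 : ∀ i j, n' * h i j = a' * g i j := by
      intro i j
      apply mul_left_cancel₀ he0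
      have := he i j
      rw [hn', ha'] at this
      linear_combination this
    have h5 : n'.natAbs = 1 := hgp _ fun i j => by
      rw [Int.natCast_dvd, Int.natAbs_dvd_natAbs]
      exact hcop.dvd_of_dvd_mul_left ⟨h i j, (h4 i j).symm⟩
    rw [← Int.natAbs_dvd_natAbs, hn', ha', Int.natAbs_mul, h5, mul_one, Int.natAbs_natCast,
      Int.natAbs_mul, Int.natAbs_natCast]
    exact dvd_mul_right _ _
  have h3 : a = g.det ∨ a = -g.det := by
    have h4 : a.natAbs = g.det.natAbs := Nat.dvd_antisymm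
      (by rw [← Int.natCast_dvd]; exact h1) (Int.natAbs_dvd_natAbs.mpr h2)
    exact Int.natAbs_eq_natAbs_iff.mp h4
  rcases h3 with h3 | h3
  · left
    ext i j
    apply mul_left_cancel₀ hdet.ne'
    rw [he i j, h3]
  · right
    ext i j
    apply mul_left_cancel₀ hdet.ne'
    rw [he i j, h3, Matrix.neg_apply]
    ring

/-- the value `x` is a singular modulus -/
def IsCMVal (x : ℂ) : Prop := ∃ τ : ℍ, IsCM τ ∧ x = jInv τ

theorem IsCM.maps {τ τ' : ℍ} {g : Matrix (Fin 2) (Fin 2) ℤ} (hg : g.det ≠ 0) (hm : Maps g τ τ')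
    (h : IsCM τ') : IsCM τ := by
  obtain ⟨a, b, c, ha, habc⟩ := h
  by_contra hcon
  have hn := (nonCM_iff τ).mpr hcon
  have hden := den_ne_zero hg τ
  -- `a (g00 τ + g01)² + b (..)(..) + c (..)² = 0`
  have h1 : (a : ℂ) * ((g 0 0 : ℂ) * τ + g 0 1) ^ 2 +
      b * ((g 0 0 : ℂ) * τ + g 0 1) * ((g 1 0 : ℂ) * τ + g 1 1) +
      c * ((g 1 0 : ℂ) * τ + g 1 1) ^ 2 = 0 := by
    rw [Maps] at hm
    rw [← hm]
    linear_combination ((g 1 0 : ℂ) * τ + g 1 1) ^ 2 * habc
  obtain ⟨h2, h3, h4⟩ := hn (a * g 0 0 ^ 2 + b * g 0 0 * g 1 0 + c * g 1 0 ^ 2)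
    (2 * a * g 0 0 * g 0 1 + b * (g 0 0 * g 1 1 + g 0 1 * g 1 0) + 2 * c * g 1 0 * g 1 1)
    (a * g 0 1 ^ 2 + b * g 0 1 * g 1 1 + c * g 1 1 ^ 2) (by push_cast; linear_combination h1)
  have hd : g 0 0 * g 1 1 - g 0 1 * g 1 0 ≠ 0 := by
    rw [← Matrix.det_fin_two]
    exact hg
  apply ha
  apply (mul_eq_zero.mp (?_ : (g 0 0 * g 1 1 - g 0 1 * g 1 0) ^ 2 * a = 0)).resolve_left
    (pow_ne_zero 2 hd)
  linear_combination (g 1 1) ^ 2 * h2 - g 1 1 * g 1 0 * h3 + (g 1 0) ^ 2 * h4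

theorem isCM_of_maps {τ τ' : ℍ} {g : Matrix (Fin 2) (Fin 2) ℤ} (hg : g.det ≠ 0)
    (hm : Maps g τ τ') : IsCM τ ↔ IsCM τ' := by
  constructor
  · intro h
    exact IsCM.maps (g := g.adjugate) (by rw [det_adjugate_eq]; exact hg) hm.adj h
  · exact IsCM.maps hg hm

theorem isCMVal_jInv (τ : ℍ) : IsCMVal (jInv τ) ↔ IsCM τ := by
  constructor
  · rintro ⟨τ', h, h1⟩
    obtain ⟨γ, hγ⟩ := j_inj h1
    rw [hγ]
    exact (isCM_of_maps (by rw [γ.2]; exact one_ne_zero) (maps_sl γ τ')).mp h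
  · intro h
    exact ⟨τ, h, rfl⟩

theorem not_isCMVal_jInv (τ : ℍ) : ¬ IsCMVal (jInv τ) ↔ NonCM (τ : ℂ) := by
  rw [isCMVal_jInv, nonCM_iff]

/-- being CM is an isogeny invariant -/
theorem IsogDeg.isCMVal_iff (hN : 0 < N) (h : IsogDeg N x y) : IsCMVal x ↔ IsCMVal y := by
  obtain ⟨τ, τ', g, hg, hm, rfl, rfl⟩ := h
  rw [isCMVal_jInv, isCMVal_jInv]
  exact isCM_of_maps (by rw [hg]; exact_mod_cast hN.ne') hm

/-- the singular moduli are the numbers with an isogeny to themselves of degree not a square -/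
theorem isCMVal_iff : IsCMVal x ↔ ∃ N : ℕ, 0 < N ∧ (∀ m : ℕ, m ^ 2 ≠ N) ∧ IsogDeg N x x := by
  constructor
  · rintro ⟨τ, ⟨a, b, c, ha, habc⟩, rfl⟩
    have hτ := τ.im_pos
    have hτ' : (τ : ℂ).im ≠ 0 := ne_of_gt hτ
    have hD : b ^ 2 - 4 * a * c < 0 := by
      by_contra hcon
      push Not at hcon
      have h1 : (2 * (a : ℂ) * (τ : ℂ) + b) ^ 2 = ((b ^ 2 - 4 * a * c : ℤ) : ℂ) := by
        push_cast
        linear_combination 4 * (a : ℂ) * habc
      have h2 : ((b ^ 2 - 4 * a * c : ℤ) : ℂ) =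
          ((Real.sqrt ((b ^ 2 - 4 * a * c : ℤ) : ℝ) : ℝ) : ℂ) ^ 2 := by
        rw [← Complex.ofReal_pow, Real.sq_sqrt (by exact_mod_cast hcon)]
        simp
      rw [h2, sq_eq_sq_iff_eq_or_eq_neg] at h1
      have h3 : (2 * (a : ℂ) * (τ : ℂ) + b).im = 0 := by
        rcases h1 with h | h
        · rw [h]; simp
        · rw [h]; simp
      have h4 : (2 * (a : ℂ) * (τ : ℂ) + b).im = 2 * a * (τ : ℂ).im := by
        simp [Complex.mul_im]
      rw [h4] at h3
      have h5 : (a : ℝ) ≠ 0 := by exact_mod_cast ha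
      exact (mul_ne_zero (mul_ne_zero two_ne_zero h5) hτ') h3
    set D := b ^ 2 - 4 * a * c with hDdef
    obtain ⟨m, hm⟩ : ∃ m : ℤ, -D < 2 * m - b ∧ 0 < 2 * m - b := ⟨|D| + |b| + 1, by
      have h1 := neg_abs_le D
      have h2 := abs_nonneg D
      have h3 := abs_nonneg b
      have h4 := le_abs_self b
      have h5 := neg_le_abs D
      constructor <;> omega⟩
    let A : Matrix (Fin 2) (Fin 2) ℤ := !![m - b, -c; a, m]
    have hAdet : A.det = m ^ 2 - b * m + a * c := by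
      simp only [A, Matrix.det_fin_two_of]
      ring
    have h4det : 4 * A.det = (2 * m - b) ^ 2 - D := by
      rw [hAdet, hDdef]
      ring
    have hpos : 0 < A.det := by nlinarith [sq_nonneg (2 * m - b)]
    refine ⟨A.det.toNat, by omega, ?_, τ, τ, A, (Int.toNat_of_nonneg hpos.le).symm, ?_, rfl, rfl⟩
    · intro k hk
      have h1 : ((k : ℤ)) ^ 2 = A.det := by
        have h2 : ((A.det.toNat : ℕ) : ℤ) = A.det := Int.toNat_of_nonneg hpos.le
        rw [← h2, ← hk]; push_cast; ring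
      have h2 : (2 * (k : ℤ)) ^ 2 = (2 * m - b) ^ 2 - D := by rw [← h4det, ← h1]; ring
      have h3 : 2 * m - b < 2 * (k : ℤ) := by
        by_contra hcon
        push Not at hcon
        have : (2 * (k : ℤ)) ^ 2 ≤ (2 * m - b) ^ 2 := by
          apply pow_le_pow_left₀ (by positivity) hcon
        omega
      nlinarith
    · rw [Maps]
      simp only [A, Matrix.of_apply, Matrix.cons_val', Matrix.cons_val_zero, Matrix.cons_val_one,
        Matrix.cons_val_fin_one]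
      push_cast
      linear_combination habc
  · rintro ⟨N, hN, hsq, h⟩
    obtain ⟨τ, rfl⟩ := j_surj x
    obtain ⟨g, hg, hm⟩ := (isogDeg_iff_maps hN τ τ).mp h
    rw [isCMVal_jInv]
    by_contra hcon
    have h1 := ((nonCM_iff τ).mpr hcon).scalar hm
    have h2 := congrArg Matrix.det h1
    rw [Matrix.det_smul, Matrix.det_one, mul_one, hg, Fintype.card_fin] at h2
    apply hsq (g 0 0).natAbs
    zify
    rw [sq_abs, h2]

/-- the minimal degree between isogenous points which are not CM -/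
theorem exists_min_deg (hx : ¬ IsCMVal x) (hN : 0 < N) (h : IsogDeg N x y) :
    ∃ n : ℕ, 0 < n ∧ ∀ M : ℕ, 0 < M → (IsogDeg M x y ↔ ∃ k : ℕ, 0 < k ∧ M = k ^ 2 * n) := by
  obtain ⟨τ, rfl⟩ := j_surj x
  rw [not_isCMVal_jInv] at hx
  obtain ⟨k, n, g, τ', hk, hn, hkn, hp, hg, hm, rfl⟩ := IsogDeg.exists_prim hN h
  refine ⟨n, hn, fun M hM => ⟨fun hMx => ?_, ?_⟩⟩
  · obtain ⟨g', hg', hm'⟩ := (isogDeg_iff_maps hM τ τ').mp hMx
    have hg0 : g'.det ≠ 0 := by rw [hg']; exact_mod_cast hM.ne'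
    obtain ⟨l, h', hl, hgl, hp'⟩ := LGO.exists_prim hg0
    have hlZ : (l : ℤ) ≠ 0 := by exact_mod_cast hl.ne'
    rw [hgl, Maps.smul_iff hlZ] at hm'
    refine ⟨l, hl, ?_⟩
    have h3 : h'.det = n := by
      rcases hx.prim_unique hm hm' (by rw [hg]; exact_mod_cast hn) hp hp' with h4 | h4
      · rw [h4, hg]
      · rw [h4, Matrix.det_neg, hg]
        simp
    have h5 : (M : ℤ) = l ^ 2 * n := by
      rw [← hg', hgl, Matrix.det_smul, h3]
      simp
    exact_mod_cast h5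
  · rintro ⟨l, hl, rfl⟩
    exact IsogDeg.mul_sq hl ⟨τ, τ', g, hg, hm, rfl, rfl⟩

end Pool.Agent.LGO
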