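import Mathlib
import Pool.Agent.EllSch.JFun
import Pool.Agent.LGO.Mul.Unif
import Pool.Agent.LGO.Gal.Basic

/-!
# `j` in terms of `g₂` and `g₃`
-/

namespace Pool.Agent.LGO

open UpperHalfPlane Pool.Agent.EllSch Pool.Agent.Hhelper14.ZP Pool.Agent.Hhelper14.ZPL

theorem G2_eq (τ : ℍ) : G2 1 (τ : ℂ) = 4 * (Real.pi : ℂ) ^ 4 / 3 * ModularForm.E₄ τ := Disc_G2_eq τ

theorem G3_eq (τ : ℍ) : G3 1 (τ : ℂ) = 8 * (Real.pi : ℂ) ^ 6 / 27 * ModularForm.E₆ τ := Disc_G3_eq τ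

theorem disc_ne_zero_jn (τ : ℍ) : G2 1 (τ : ℂ) ^ 3 - 27 * G3 1 (τ : ℂ) ^ 2 ≠ 0 :=
  disc_ne_zero (ind_one τ.im_pos)

/-- `j = 1728 g₂³ / (g₂³ - 27 g₃²)` -/
theorem jInv_eq (τ : ℍ) : jInv τ =
    1728 * G2 1 (τ : ℂ) ^ 3 / (G2 1 (τ : ℂ) ^ 3 - 27 * G3 1 (τ : ℂ) ^ 2) := by
  rw [eq_div_iff (disc_ne_zero_jn τ), jInv_mul]

theorem jInv_eq_jf (τ : ℍ) : jInv τ = jf τ := by
  rw [jf, jInv_eq]

/-- the homogeneous version -/
theorem jInv_mul_w (τ : ℍ) {w : ℂ} (hw : w ≠ 0) :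
    jInv τ * (G2 w (w * τ) ^ 3 - 27 * G3 w (w * τ) ^ 2) = 1728 * G2 w (w * τ) ^ 3 := by
  rw [G2_scale hw, G3_scale hw]
  have h := jInv_mul τ
  field_simp
  linear_combination h

theorem disc_ne_zero_w (τ : ℍ) {w : ℂ} (hw : w ≠ 0) :
    G2 w (w * τ) ^ 3 - 27 * G3 w (w * τ) ^ 2 ≠ 0 := by
  rw [G2_scale hw, G3_scale hw]
  have h := disc_ne_zero_jn τ
  intro h0
  apply h
  field_simp at h0
  linear_combination h0

/-- every elliptic curve with invariant `j(τ)` has a period lattice homothetic to that of `τ` -/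
theorem exists_period {τ : ℍ} {g2 g3 : ℂ} (hd : g2 ^ 3 - 27 * g3 ^ 2 ≠ 0)
    (hj : jInv τ * (g2 ^ 3 - 27 * g3 ^ 2) = 1728 * g2 ^ 3) :
    ∃ w : ℂ, w ≠ 0 ∧ G2 w (w * τ) = g2 ∧ G3 w (w * τ) = g3 := by
  set A := G2 1 (τ : ℂ) with hA
  set B := G3 1 (τ : ℂ) with hB
  have hAB : A ^ 3 - 27 * B ^ 2 ≠ 0 := disc_ne_zero_jn τ
  have hjA : jInv τ * (A ^ 3 - 27 * B ^ 2) = 1728 * A ^ 3 := jInv_mul τ
  have hrel : A ^ 3 * g3 ^ 2 = g2 ^ 3 * B ^ 2 := by
    have h1 : (1728 * 27 : ℂ) * (A ^ 3 * g3 ^ 2 - g2 ^ 3 * B ^ 2) = 0 := by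
      linear_combination (g2 ^ 3 - 27 * g3 ^ 2) * hjA - (A ^ 3 - 27 * B ^ 2) * hj
    have h2 := (mul_eq_zero.mp h1).resolve_left (by norm_num)
    linear_combination h2
  suffices h : ∃ w : ℂ, w ≠ 0 ∧ A = g2 * w ^ 4 ∧ B = g3 * w ^ 6 by
    obtain ⟨w, hw, h1, h2⟩ := h
    refine ⟨w, hw, ?_, ?_⟩
    · rw [G2_scale hw, ← hA, h1]
      field_simp
    · rw [G3_scale hw, ← hB, h2]
      field_simp
  by_cases h2 : g2 = 0
  · have h3 : g3 ≠ 0 := by
      rintro rfl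
      apply hd
      rw [h2]; ring
    have hA0 : A = 0 := by
      rw [h2] at hrel
      have h4 : A ^ 3 * g3 ^ 2 = 0 := by rw [hrel]; ring
      exact pow_eq_zero_iff (three_ne_zero) |>.mp
        ((mul_eq_zero.mp h4).resolve_right (pow_ne_zero 2 h3))
    have hB0 : B ≠ 0 := by
      intro h0
      apply hAB
      rw [hA0, h0]; ring
    obtain ⟨w, hw⟩ := IsAlgClosed.exists_pow_nat_eq (B / g3) (n := 6) (by norm_num)
    refine ⟨w, ?_, by rw [hA0, h2, zero_mul], by rw [hw]; field_simp⟩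
    rintro rfl
    rw [zero_pow (by norm_num)] at hw
    exact (div_ne_zero hB0 h3) hw.symm
  · by_cases h3 : g3 = 0
    · have hB0 : B = 0 := by
        rw [h3] at hrel
        have h4 : g2 ^ 3 * B ^ 2 = 0 := by rw [← hrel]; ring
        exact pow_eq_zero_iff (two_ne_zero) |>.mp
          ((mul_eq_zero.mp h4).resolve_left (pow_ne_zero 3 h2))
      have hA0 : A ≠ 0 := by
        intro h0
        apply hAB
        rw [hB0, h0]; ring
      obtain ⟨w, hw⟩ := IsAlgClosed.exists_pow_nat_eq (A / g2) (n := 4) (by norm_num)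
      refine ⟨w, ?_, by rw [hw]; field_simp, by rw [hB0, h3, zero_mul]⟩
      rintro rfl
      rw [zero_pow (by norm_num)] at hw
      exact (div_ne_zero hA0 h2) hw.symm
    · have hA0 : A ≠ 0 := by
        intro h0
        rw [h0] at hrel hAB
        have h4 : g2 ^ 3 * B ^ 2 = 0 := by rw [← hrel]; ring
        have h5 : B = 0 := pow_eq_zero_iff (two_ne_zero) |>.mp
          ((mul_eq_zero.mp h4).resolve_left (pow_ne_zero 3 h2))
        apply hAB
        rw [h5]; ring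
      have hB0 : B ≠ 0 := by
        intro h0
        rw [h0] at hrel
        have h4 : A ^ 3 * g3 ^ 2 = 0 := by rw [hrel]; ring
        rcases mul_eq_zero.mp h4 with h5 | h5
        · exact hA0 (pow_eq_zero_iff (three_ne_zero) |>.mp h5)
        · exact h3 (pow_eq_zero_iff (two_ne_zero) |>.mp h5)
      obtain ⟨w, hw⟩ := IsAlgClosed.exists_pow_nat_eq (B * g2 / (A * g3)) (n := 2) (by norm_num)
      have hw4 : w ^ 4 = A / g2 := by
        have h5 : w ^ 4 = (w ^ 2) ^ 2 := by ring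
        rw [h5, hw]
        field_simp
        linear_combination -hrel
      have hw6 : w ^ 6 = B / g3 := by
        have h5 : w ^ 6 = w ^ 2 * w ^ 4 := by ring
        rw [h5, hw, hw4]
        field_simp
      refine ⟨w, ?_, by rw [hw4]; field_simp, by rw [hw6]; field_simp⟩
      rintro rfl
      rw [zero_pow (by norm_num)] at hw
      exact (div_ne_zero (mul_ne_zero hB0 h2) (mul_ne_zero hA0 h3)) hw.symm

end Pool.Agent.LGO
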