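import Mathlib
import Pool.Agent.LGO.Gal.JEq
import Pool.Agent.LGO.Gal.CM

/-!
# Special values of `j`, and `j` near the cusp
-/

namespace Pool.Agent.LGO

open UpperHalfPlane Pool.Agent.EllSch Pool.Agent.Hhelper14.ZP Pool.Agent.Hhelper14.ZPL Function Gal

/-- the cubic root of unity -/
noncomputable def rhoH : ℍ := ⟨⟨-1 / 2, √3 / 2⟩, by
  have : 0 < √3 := Real.sqrt_pos.mpr (by norm_num)
  show 0 < √3 / 2
  positivity⟩

theorem rhoH_eq : (rhoH : ℂ) ^ 2 + rhoH + 1 = 0 := by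
  have h3 : (√3 : ℝ) ^ 2 = 3 := Real.sq_sqrt (by norm_num)
  apply Complex.ext
  · change ((⟨-1 / 2, √3 / 2⟩ : ℂ) ^ 2 + (⟨-1 / 2, √3 / 2⟩ : ℂ) + 1).re = (0 : ℂ).re
    simp only [pow_two, Complex.add_re, Complex.mul_re, Complex.one_re, Complex.zero_re]
    linear_combination (-1 / 4 : ℝ) * h3
  · change ((⟨-1 / 2, √3 / 2⟩ : ℂ) ^ 2 + (⟨-1 / 2, √3 / 2⟩ : ℂ) + 1).im = (0 : ℂ).im
    simp only [pow_two, Complex.add_im, Complex.mul_im, Complex.one_im, Complex.zero_im]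
    ring

theorem isCM_rhoH : IsCM rhoH :=
  ⟨1, 1, 1, one_ne_zero, by push_cast; linear_combination rhoH_eq⟩

theorem isCM_I : IsCM UpperHalfPlane.I :=
  ⟨1, 0, 1, one_ne_zero, by
    push_cast
    linear_combination Complex.I_sq⟩

theorem G2_rhoH : G2 1 (rhoH : ℂ) = 0 := by
  have hρ := rhoH_eq
  have hρ0 : (rhoH : ℂ) ≠ 0 := by
    intro h
    rw [h] at hρ
    simp at hρ
  have h1 := G2_change (a := 1) (b := (rhoH : ℂ)) (p := 0) (q := 1) (r := -1) (s := -1)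
    (by norm_num)
  have h2 := G2_smul (a := 1) (b := (rhoH : ℂ)) hρ0
  have e1 : ((0 : ℤ) : ℂ) * 1 + ((1 : ℤ) : ℂ) * rhoH = rhoH * 1 := by push_cast; ring
  have e2 : ((-1 : ℤ) : ℂ) * 1 + ((-1 : ℤ) : ℂ) * rhoH = rhoH * rhoH := by
    push_cast
    linear_combination -hρ
  rw [e1, e2, h2, div_eq_iff (pow_ne_zero 4 hρ0)] at h1
  have h4 : (rhoH : ℂ) ^ 4 = rhoH := by
    linear_combination ((rhoH : ℂ) ^ 2 - rhoH) * hρ
  rw [h4] at h1
  have h5 : G2 1 (rhoH : ℂ) * ((rhoH : ℂ) - 1) = 0 := by linear_combination -h1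
  rcases mul_eq_zero.mp h5 with h | h
  · exact h
  · exfalso
    have h6 : (rhoH : ℂ) = 1 := by linear_combination h
    rw [h6] at hρ
    norm_num at hρ

theorem G3_I : G3 1 (UpperHalfPlane.I : ℂ) = 0 := by
  rw [UpperHalfPlane.coe_I]
  have hI0 : Complex.I ≠ 0 := Complex.I_ne_zero
  have hI2 : Complex.I ^ 2 = -1 := Complex.I_sq
  have h1 := G3_change (a := 1) (b := Complex.I) (p := 0) (q := 1) (r := -1) (s := 0)
    (by norm_num)
  have h2 := G3_smul (a := 1) (b := Complex.I) hI0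
  have e1 : ((0 : ℤ) : ℂ) * 1 + ((1 : ℤ) : ℂ) * Complex.I = Complex.I * 1 := by push_cast; ring
  have e2 : ((-1 : ℤ) : ℂ) * 1 + ((0 : ℤ) : ℂ) * Complex.I = Complex.I * Complex.I := by
    push_cast
    linear_combination -hI2
  rw [e1, e2, h2, div_eq_iff (pow_ne_zero 6 hI0)] at h1
  have h6 : Complex.I ^ 6 = -1 := by
    have : Complex.I ^ 6 = (Complex.I ^ 2) ^ 3 := by ring
    rw [this, hI2]
    norm_num
  rw [h6] at h1
  have h7 : (2 : ℂ) * G3 1 Complex.I = 0 := by linear_combination h1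
  exact (mul_eq_zero.mp h7).resolve_left two_ne_zero

theorem jInv_rhoH : jInv rhoH = 0 := by
  rw [jInv_eq, G2_rhoH]
  simp

theorem jInv_I : jInv UpperHalfPlane.I = 1728 := by
  have h := disc_ne_zero_jn UpperHalfPlane.I
  rw [jInv_eq]
  rw [G3_I] at h ⊢
  rw [div_eq_iff h]
  ring

theorem isCMVal_zero : IsCMVal 0 := ⟨rhoH, isCM_rhoH, jInv_rhoH.symm⟩

theorem isCMVal_1728 : IsCMVal 1728 := ⟨UpperHalfPlane.I, isCM_I, jInv_I.symm⟩

theorem G2_ne {τ : ℍ} (h : NonCM (τ : ℂ)) : G2 1 (τ : ℂ) ≠ 0 := by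
  intro h0
  rw [← not_isCMVal_jInv, jInv_eq, h0] at h
  apply h
  simpa using isCMVal_zero

theorem G3_ne {τ : ℍ} (h : NonCM (τ : ℂ)) : G3 1 (τ : ℂ) ≠ 0 := by
  intro h0
  have hd := disc_ne_zero_jn τ
  rw [← not_isCMVal_jInv, jInv_eq, h0] at h
  apply h
  rw [h0] at hd
  have h1 : (1728 * G2 1 (τ : ℂ) ^ 3 / (G2 1 (τ : ℂ) ^ 3 - 27 * 0 ^ 2) : ℂ) = 1728 := by
    rw [div_eq_iff hd]
    ring
  rw [h1]
  exact isCMVal_1728

/-- `j` near the cusp -/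
theorem j_cusp : ∃ C : ℝ, 0 < C ∧ ∀ τ : ℍ, 1 / 2 ≤ τ.im →
    ‖jInv τ * Complex.exp (2 * Real.pi * Complex.I * τ) - 1‖ ≤
      C * ‖Complex.exp (2 * Real.pi * Complex.I * τ)‖ := by
  obtain ⟨J, hJ, hJ0, hJτ⟩ := exists_J
  obtain ⟨G, hG, hGz⟩ := (hJ.sub (Good.const (O := OO) OO.one_mem)).div_id (by
    simp only [hJ0, sub_self])
  have hana : AnalyticOnNhd ℂ G (Metric.ball 0 1) :=
    hG.differentiableOn.analyticOnNhd Metric.isOpen_ball
  set ρ := Real.exp (-2 * Real.pi * (1 / 2)) with hρ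
  have hρ1 : ρ < 1 := by
    rw [hρ, Real.exp_lt_one_iff]
    have := Real.pi_pos
    linarith
  obtain ⟨B, hB⟩ := (isCompact_closedBall (0 : ℂ) ρ).exists_bound_of_continuousOn
    (f := G) (hana.continuousOn.mono (Metric.closedBall_subset_ball hρ1))
  have hB0 : 0 ≤ B := (norm_nonneg _).trans (hB 0 (by simp [hρ, Real.exp_nonneg]))
  refine ⟨B + 1, by linarith, fun τ hτ => ?_⟩
  have hq : Periodic.qParam 1 (τ : ℂ) = Complex.exp (2 * Real.pi * Complex.I * τ) := by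
    simp [Periodic.qParam]
  have hqn : ‖Periodic.qParam 1 (τ : ℂ)‖ ≤ ρ := by
    rw [norm_qParam, hρ, Real.exp_le_exp]
    have := Real.pi_pos
    nlinarith
  rw [← hq, hJτ]
  have h1 := hGz (Periodic.qParam 1 (τ : ℂ)) (norm_qParam_lt τ)
  rw [h1, norm_mul, mul_comm]
  have h2 := hB (Periodic.qParam 1 (τ : ℂ)) (by simpa using hqn)
  refine mul_le_mul_of_nonneg_right ?_ (norm_nonneg _)
  linarith

end Pool.Agent.LGO
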