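import Mathlib
import Pool.Agent.LGO.Gal.CM

/-!
# Points of a curve with an isogeny of given degree
-/

namespace Pool.Agent.LGO

open UpperHalfPlane MvPolynomial Pool.Agent.Hhelper14.ZP Pool.Agent.Hhelper14.ZPL MatrixGroups
  Function Gal

/-- a closed set which does not contain a curve meets it in finitely many points -/
theorem finite_inter {ι : Type} [Fintype ι] {V Z : Set (ι → ℂ)}
    (hV : Pool.Agent.Hhelper14.ZPL.IsIrredClosed V) (hdim : Pool.Agent.Hhelper14.ZPL.dim V = 1)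
    (hZ : IsZClosed Z) (h : ¬ V ⊆ Z) : (V ∩ Z).Finite := by
  obtain ⟨F, hF, hF'⟩ := exists_components (closed_inter hV.2 hZ)
  have h1 : V ∩ Z ⊆ ⋃ D ∈ F, D := by
    intro x hx
    obtain ⟨D, hD, hxD⟩ := hF' {x} (irredClosed_singleton x) (Set.singleton_subset_iff.mpr hx)
    exact Set.mem_biUnion hD (hxD (Set.mem_singleton x))
  refine Set.Finite.subset (Set.Finite.biUnion F.finite_toSet fun D hD => ?_) h1
  apply Set.Subsingleton.finite
  intro x hx y hy
  by_contra hxy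
  have hD' := hF D hD
  have h2 := one_le_dim hD'.1 hx hy hxy
  have h3 : D ⊆ V := hD'.2.1.trans Set.inter_subset_left
  have h4 : D = V := eq_of_dim_le hD'.1 hV h3 (by rw [hdim]; exact h2)
  apply h
  rw [← h4]
  exact hD'.2.1.trans Set.inter_subset_right

/-- on a curve which satisfies no modular relation between the coordinates `a` and `b`, there are
finitely many points with an isogeny of degree `m` between these coordinates -/
theorem finite_isogDeg {ι : Type} [Fintype ι] {V : Set (ι → ℂ)}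
    (hV : Pool.Agent.Hhelper14.ZPL.IsIrredClosed V) (hdim : Pool.Agent.Hhelper14.ZPL.dim V = 1)
    {a b : ι} (hab : a ≠ b)
    (hmod : ∀ g : GL (Fin 2) ℚ, 0 < g.det.val →
      ∃ x ∈ V, ¬ ∃ τ : ℍ, x a = jInv τ ∧ x b = jInv (gact g τ)) {m : ℕ} (hm : 0 < m) :
    {x ∈ V | IsogDeg m (x a) (x b)}.Finite := by
  classical
  have := finite_QQ hm
  choose g hg hgq using exists_gl_jQ hm
  have h1 : {x ∈ V | IsogDeg m (x a) (x b)} ⊆
      ⋃ q : QQ m, V ∩ {x : ι → ℂ | ∃ τ : ℍ, x a = jInv (gact 1 τ) ∧ x b = jInv (gact (g q) τ)} := by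
    rintro x ⟨hxV, hx⟩
    obtain ⟨τ, A, h2, h3⟩ := (isogDeg_iff hm).mp hx
    refine Set.mem_iUnion.mpr ⟨Quotient.mk'' A, hxV, τ, by rw [gact_one]; exact h2, ?_⟩
    rw [hgq, jQ_mk]
    exact h3
  refine Set.Finite.subset (Set.finite_iUnion fun q => ?_) h1
  refine finite_inter hV hdim (special_closed (special_pair hab (by simp) (hg q))) ?_
  intro hsub
  obtain ⟨x, hx, hx'⟩ := hmod (g q) (hg q)
  apply hx'
  obtain ⟨τ, h2, h3⟩ := hsub hx
  rw [gact_one] at h2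
  exact ⟨τ, h2, h3⟩

/-- for finitely many degrees -/
theorem finite_isogDeg_le {ι : Type} [Fintype ι] {V : Set (ι → ℂ)}
    (hV : Pool.Agent.Hhelper14.ZPL.IsIrredClosed V) (hdim : Pool.Agent.Hhelper14.ZPL.dim V = 1)
    {a b : ι} (hab : a ≠ b)
    (hmod : ∀ g : GL (Fin 2) ℚ, 0 < g.det.val →
      ∃ x ∈ V, ¬ ∃ τ : ℍ, x a = jInv τ ∧ x b = jInv (gact g τ)) (B : ℕ) :
    {x ∈ V | ∃ m : ℕ, 0 < m ∧ m ≤ B ∧ IsogDeg m (x a) (x b)}.Finite := by
  have h1 : {x ∈ V | ∃ m : ℕ, 0 < m ∧ m ≤ B ∧ IsogDeg m (x a) (x b)} ⊆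
      ⋃ m ∈ Finset.Icc 1 B, {x ∈ V | IsogDeg m (x a) (x b)} := by
    rintro x ⟨hxV, m, hm, hmB, hx⟩
    exact Set.mem_biUnion (Finset.mem_coe.mpr (Finset.mem_Icc.mpr ⟨hm, hmB⟩)) ⟨hxV, hx⟩
  refine Set.Finite.subset (Set.Finite.biUnion (Finset.finite_toSet _) fun m hm => ?_) h1
  exact finite_isogDeg hV hdim hab hmod (Finset.mem_Icc.mp (Finset.mem_coe.mp hm)).1

end Pool.Agent.LGO
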