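import Mathlib
import Pool.Agent.LGO.Gal.CM
import Pool.Agent.ZPB.JSeries

/-!
# Automorphisms of `ℂ` preserve the degree of isogenies

The modular equation `Φ_N(y, X) = ∏ (y - j(A τ))` is factored over formal power series
(`formal_identity`); the power series `q j(q)` has integral coefficients, hence is fixed by `σ`, and
the image of the identity under `σ` is evaluated at the point `q^{1/N}` of a curve with invariant
`σ(x)`.
-/

namespace Pool.Agent.LGO

open UpperHalfPlane Pool.Agent.Hhelper14.ZP Pool.Agent.Hhelper14.ZPL MatrixGroups Function Gal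
  PowerSeries

variable {N : ℕ} {x y : ℂ}

/-- a root of unity times a power of `q_N` is the `q` of a translate -/
theorem translate_of_qParam {a d N : ℕ} (ha : 0 < a) (hd : 0 < d) (had : a * d = N) {c : ℂ}
    (hc : c ^ d = 1) {τ τ' : ℍ} (h : Periodic.qParam 1 (τ' : ℂ) = c * qN N τ ^ (a ^ 2)) :
    ∃ g : Matrix (Fin 2) (Fin 2) ℤ, g.det = N ∧ Maps g τ τ' := by
  have hd' : (d : ℂ) ≠ 0 := by exact_mod_cast hd.ne'
  have ha' : (a : ℂ) ≠ 0 := by exact_mod_cast ha.ne'
  have : NeZero d := ⟨hd.ne'⟩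
  obtain ⟨k, -, hk⟩ := (Complex.isPrimitiveRoot_exp d hd.ne').eq_pow_of_pow_eq_one hc
  have hNc : (N : ℂ) = a * d := by rw [← had]; push_cast; ring
  simp only [qN, Periodic.qParam] at h
  rw [← hk, ← Complex.exp_nat_mul, ← Complex.exp_nat_mul, ← Complex.exp_add] at h
  obtain ⟨n, hn⟩ := Complex.exp_eq_exp_iff_exists_int.mp h
  refine ⟨!![(a : ℤ), k + n * d; 0, d], ?_, ?_⟩
  · rw [Matrix.det_fin_two_of, ← had]
    push_cast
    ring
  · rw [Maps]
    simp only [Matrix.of_apply, Matrix.cons_val', Matrix.cons_val_zero, Matrix.cons_val_one,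
      Matrix.cons_val_fin_one]
    push_cast at hn ⊢
    rw [hNc] at hn
    have hpi : (2 * Real.pi * Complex.I : ℂ) ≠ 0 := Complex.two_pi_I_ne_zero
    field_simp at hn
    linear_combination hn

theorem IsogDeg.map (σ : ℂ →+* ℂ) (hN : 0 < N) (h : IsogDeg N x y) :
    IsogDeg N (σ x) (σ y) := by
  classical
  obtain ⟨τ₀, A, hx, hy⟩ := (isogDeg_iff hN).mp h
  have := finite_QQ hN
  have : Fintype (QQ N) := Fintype.ofFinite _
  set f : PowerSeries ℂ := PowerSeries.map (Int.castRingHom ℂ) ZPB.Jz with hfdef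
  have hf : ∀ τ : ℍ, Ev (Periodic.qParam 1 (τ : ℂ)) f (Periodic.qParam 1 (τ : ℂ) * jInv τ) :=
    ZPB.Jz_ev
  have hσf : PowerSeries.map σ f = f := by
    ext n
    rw [hfdef, PowerSeries.coeff_map, PowerSeries.coeff_map]
    simp
  choose a d c ha hd had hc hac using class_expansion hN hf
  obtain ⟨τ₁, hτ₁⟩ := j_surj (σ x)
  set s := qN N τ₁ with hs
  set q := Periodic.qParam 1 (τ₁ : ℂ) with hq
  have hsq : s ^ N = q := qN_pow hN τ₁
  have hq0 : q ≠ 0 := Periodic.qParam_ne_zero _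
  have hq1 : ‖q‖ < 1 := norm_qParam_lt τ₁
  have hs0 : s ≠ 0 := by
    rintro h0
    rw [h0, zero_pow hN.ne'] at hsq
    exact hq0 hsq.symm
  have hs1 : ‖s‖ < 1 := by
    by_contra hcon
    rw [not_lt] at hcon
    have h1 : 1 ≤ ‖s‖ ^ N := one_le_pow₀ hcon
    rw [← norm_pow, hsq] at h1
    linarith
  -- the polynomial
  choose Pk hPk using charP_coeff hN
  let P : Polynomial ℂ := ∑ k ∈ Finset.range ((charP hN).natDegree + 1),
    Polynomial.C (y ^ k) * (Pk k).map OO.subtype
  have hP : ∀ τ, P.eval (jInv τ) = ∏ q : QQ N, (y - jQ hN q τ) := by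
    intro τ
    have h1 : ((charP hN).map (evalAt N τ)).eval y = ∏ q : QQ N, (y - jQ hN q τ) := by
      rw [charP_map, Polynomial.eval_prod]
      refine Finset.prod_congr rfl fun q _ => ?_
      rw [Polynomial.eval_sub, Polynomial.eval_X, Polynomial.eval_C]
    rw [← h1, Polynomial.eval_map, Polynomial.eval₂_eq_sum_range, Polynomial.eval_finsetSum]
    refine Finset.sum_congr rfl fun k _ => ?_
    rw [Polynomial.eval_mul, Polynomial.eval_C, Polynomial.eval_map, ← hPk k τ, mul_comm]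
  have hP0 : P.eval (jInv τ₀) = 0 := by
    rw [hP τ₀]
    refine Finset.prod_eq_zero (Finset.mem_univ (Quotient.mk'' A)) ?_
    rw [jQ_mk, hy, sub_self]
  have hid := congrArg (PowerSeries.map σ) (formal_identity hN hf hac y P hP)
  simp only [map_mul, map_sum, map_prod, map_pow, map_sub, PowerSeries.map_C, PowerSeries.map_X,
    map_powComp, map_one, hσf] at hid
  -- evaluate at `s`
  have h1 : Ev s (powComp 1 N f) (q * σ (jInv τ₀)) := by
    rw [← hx, ← hτ₁]
    have h3 : Ev (1 * s ^ N) f (q * jInv τ₁) := by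
      rw [one_mul, hsq]
      exact hf τ₁
    exact h3.powComp hN
  have hcn : ∀ r : QQ N, ‖σ (c r)‖ = 1 := by
    intro r
    have h2 := congrArg (fun z => ‖σ z‖) (hc r)
    simp only [map_pow, norm_pow, map_one, norm_one] at h2
    exact (pow_eq_one_iff_of_nonneg (norm_nonneg _) (hd r).ne').mp h2
  have hun : ∀ r : QQ N, ‖σ (c r) * s ^ (a r ^ 2)‖ < 1 := by
    intro r
    rw [norm_mul, hcn, one_mul, norm_pow]
    exact pow_lt_one₀ (norm_nonneg _) hs1 (pow_pos (ha r) 2).ne'
  have hu0 : ∀ r : QQ N, σ (c r) * s ^ (a r ^ 2) ≠ 0 := by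
    intro r
    refine mul_ne_zero ?_ (pow_ne_zero _ hs0)
    intro h0
    have := hcn r
    rw [h0, norm_zero] at this
    exact zero_ne_one this
  choose t ht using fun r : QQ N => exists_qParam (hun r) (hu0 r)
  have h2 : ∀ r : QQ N, Ev s (powComp (σ (c r)) (a r ^ 2) f)
      (σ (c r) * s ^ (a r ^ 2) * jInv (t r)) := by
    intro r
    have h3 := hf (t r)
    rw [ht r] at h3
    exact h3.powComp (pow_pos (ha r) 2)
  have hL := (Ev.sum (s := s) (Finset.range (P.natDegree + 1)) _ _ fun k _ =>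
    ((Ev.C s (σ (P.coeff k))).mul (h1.pow k)).mul ((Ev.X s).pow (N * (P.natDegree - k)))).mul
    (Ev.prod (s := s) Finset.univ _ _ fun (r : QQ N) _ =>
      (Ev.C s (σ (c r))).mul ((Ev.X s).pow (a r ^ 2)))
  have hR := ((Ev.X s).pow (N * P.natDegree)).mul
    (Ev.prod (s := s) Finset.univ _ _ fun (r : QQ N) _ =>
      (((Ev.C s (σ y)).mul (Ev.C s (σ (c r)))).mul ((Ev.X s).pow (a r ^ 2))).sub (h2 r))
  rw [hid] at hL
  have hval := hR.unique hL
  have e1 : ∑ k ∈ Finset.range (P.natDegree + 1), σ (P.coeff k) * (q * σ (jInv τ₀)) ^ k *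
      s ^ (N * (P.natDegree - k)) = 0 := by
    have e2 : ∑ k ∈ Finset.range (P.natDegree + 1), σ (P.coeff k) * (q * σ (jInv τ₀)) ^ k *
      s ^ (N * (P.natDegree - k)) = q ^ P.natDegree * σ (P.eval (jInv τ₀)) := by
      rw [Polynomial.eval_eq_sum_range, map_sum, Finset.mul_sum]
      refine Finset.sum_congr rfl fun k hk => ?_
      have hk' : k ≤ P.natDegree := by
        have := Finset.mem_range.mp hk
        omega
      rw [pow_mul, hsq, map_mul, map_pow]
      have e3 : q ^ P.natDegree = q ^ k * q ^ (P.natDegree - k) := by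
        rw [← pow_add, Nat.add_sub_cancel' hk']
      rw [e3, mul_pow]
      ring
    rw [e2, hP0, map_zero, mul_zero]
  rw [e1, zero_mul] at hval
  have hne : s ^ (N * P.natDegree) ≠ 0 := pow_ne_zero _ hs0
  have hprod := (mul_eq_zero.mp hval).resolve_left hne
  obtain ⟨r, -, hr⟩ := Finset.prod_eq_zero_iff.mp hprod
  have hyr : σ y = jInv (t r) := by
    apply mul_left_cancel₀ (hu0 r)
    linear_combination hr
  obtain ⟨g, hg, hm⟩ := translate_of_qParam (ha r) (hd r) (had r)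
    (by rw [← map_pow, hc r, map_one]) (ht r)
  exact ⟨τ₁, t r, g, hg, hm, hτ₁.symm, hyr⟩

theorem isogDeg_map_iff (σ : ℂ ≃+* ℂ) (hN : 0 < N) :
    IsogDeg N (σ x) (σ y) ↔ IsogDeg N x y := by
  refine ⟨fun h => ?_, fun h => h.map σ.toRingHom hN⟩
  have := h.map σ.symm.toRingHom hN
  simpa using this

theorem HeckeRel.map' (σ : ℂ →+* ℂ) (h : HeckeRel x y) : HeckeRel (σ x) (σ y) := by
  obtain ⟨N, hN, h⟩ := heckeRel_iff.mp h
  exact heckeRel_iff.mpr ⟨N, hN, h.map σ hN⟩

/-- being CM is invariant under automorphisms -/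
theorem IsCMVal.map (σ : ℂ →+* ℂ) (h : IsCMVal x) : IsCMVal (σ x) := by
  obtain ⟨N, hN, hsq, h⟩ := isCMVal_iff.mp h
  exact isCMVal_iff.mpr ⟨N, hN, hsq, h.map σ hN⟩

theorem isCMVal_map_iff (σ : ℂ ≃+* ℂ) : IsCMVal (σ x) ↔ IsCMVal x := by
  refine ⟨fun h => ?_, fun h => h.map σ.toRingHom⟩
  have := h.map σ.symm.toRingHom
  simpa using this

end Pool.Agent.LGO
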