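import Mathlib
import Pool.Agent.LGO.Gal.Inv
import Pool.Agent.LGO.Gal.JG
import Pool.Agent.LGO.Gal.Fin
import Pool.Agent.LGO.H.MDeg

/-!
# Numbers which are not CM, minimal degrees (continuation of LGO/H/MDeg)
-/

namespace Pool.Agent.LGO

open UpperHalfPlane Pool.Agent.Hhelper14.ZP Pool.Agent.Hhelper14.ZPL Function Gal

variable {N : ℕ} {x y z : ℂ}

theorem isogDeg_map (σ : ℂ ≃+* ℂ) (hN : 0 < N) (h : IsogDeg N x y) : IsogDeg N (σ x) (σ y) :=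
  h.map σ.toRingHom hN

theorem ncm_jInv (τ : ℍ) : NCM (jInv τ) ↔ NonCM (τ : ℂ) := by
  rw [ncm_iff, not_isCMVal_jInv]

theorem ncm_map_iff (σ : ℂ ≃+* ℂ) : NCM (σ x) ↔ NCM x := by
  rw [ncm_iff, ncm_iff, isCMVal_map_iff]

/-- the property of not being CM is preserved by automorphisms -/
theorem nonCM_map (σ : ℂ ≃+* ℂ) {τ τ' : ℍ} (h : NonCM (τ : ℂ)) (hσ : σ (jInv τ) = jInv τ') :
    NonCM (τ' : ℂ) := by
  rw [← ncm_jInv] at h ⊢
  rw [← hσ]
  exact h.map σ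

/-- for numbers which are not CM the degrees are the products of the minimal degree and squares -/
theorem isogDeg_iff_mdeg (hx : NCM x) (hN : 0 < N) (h : IsogDeg N x y) {M : ℕ} (hM : 0 < M) :
    IsogDeg M x y ↔ ∃ k : ℕ, 0 < k ∧ M = k ^ 2 * mdeg x y := by
  obtain ⟨n, hn, hn'⟩ := exists_min_deg (ncm_iff.mp hx) hN h
  have h1 := mdeg_spec ⟨N, hN, h⟩
  have h2 : mdeg x y = n := by
    have h3 : mdeg x y ≤ n := mdeg_le hn ((hn' n hn).mpr ⟨1, one_pos, by ring⟩)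
    obtain ⟨k, hk, hkn⟩ := (hn' _ h1.1).mp h1.2
    have h4 : 1 ≤ k ^ 2 := one_le_pow₀ hk
    nlinarith
  rw [h2]
  exact hn' M hM

/-- in the non-CM case every primitive matrix has the minimal degree -/
theorem det_eq_mdeg {τ τ' : ℍ} (hτ : NonCM (τ : ℂ)) {g : Matrix (Fin 2) (Fin 2) ℤ}
    (hg : 0 < g.det) (hp : Prim g) (hm : Maps g τ τ') : g.det = mdeg (jInv τ) (jInv τ') := by
  have h1 : IsogDeg g.det.toNat (jInv τ) (jInv τ') :=
    ⟨τ, τ', g, (Int.toNat_of_nonneg hg.le).symm, hm, rfl, rfl⟩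
  obtain ⟨g', hg', -, hp', hm'⟩ := exists_prim_mdeg ⟨_, by omega, h1⟩
  rcases hτ.prim_unique hm hm' hg hp hp' with h | h
  · rw [← hg', h]
  · rw [← hg', h, Matrix.det_neg]
    simp

/-- the minimal degrees of three isogenous numbers which are not CM: `N₁₂ N₂₃ = k² N₁₃` -/
theorem mdeg_mul (hx : NCM x) (hxy : HeckeRel x y) (hyz : HeckeRel y z) :
    ∃ k : ℕ, 0 < k ∧ mdeg x y * mdeg y z = k ^ 2 * mdeg x z := by
  have h3 := mdeg_spec (heckeRel_iff.mp hxy)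
  have h4 := mdeg_spec (heckeRel_iff.mp hyz)
  have h5 : IsogDeg (mdeg x y * mdeg y z) x z := h3.2.trans h4.1 h4.2
  have h6 : 0 < mdeg x y * mdeg y z := Nat.mul_pos h3.1 h4.1
  exact (isogDeg_iff_mdeg hx h6 h5 h6).mp h5

theorem HeckeRel.symm' (h : HeckeRel x y) : HeckeRel y x := by
  obtain ⟨N, hN, h1⟩ := heckeRel_iff.mp h
  exact heckeRel_iff.mpr ⟨N, hN, h1.symm⟩

theorem HeckeRel.trans' (h : HeckeRel x y) (h' : HeckeRel y z) : HeckeRel x z := by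
  obtain ⟨N, hN, h1⟩ := heckeRel_iff.mp h
  obtain ⟨M, hM, h2⟩ := heckeRel_iff.mp h'
  exact heckeRel_iff.mpr ⟨N * M, Nat.mul_pos hN hM, h1.trans hM h2⟩

theorem HeckeRel.refl' (x : ℂ) : HeckeRel x x := heckeRel_iff.mpr ⟨1, one_pos, IsogDeg.refl x⟩

end Pool.Agent.LGO
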